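import Pool.Agent.K7.H57.Cub.Law
import Pool.Agent.K7.H57.Cub.Lin
import Pool.Agent.Results.MP_081200_nt.FewDigitCubicCharacters

/-!
# Square-root cancellation in short intervals far from the origin, for the cubic characters of almost all conductors on a line

For a cubic character `ψ` the known conditional and almost-all results control the sum of `ψ` over `(M, M + N]` only if it is a difference of two
initial sums, so for `N` at least about `√M` (this is also the limit of the generalized Riemann hypothesis). Here `M` may be any fixed power of `N`.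

**Theorem.** For all `A`, `C` and `δ > 0` there are `c > 0` and `y₀` such that for all `y ≥ y₀` and all lines
`{β + t γ : 0 ≤ t < L}` in `ℤ[ω]` with `1 ≤ |det (β, γ)| ≤ y ^ A`, all but at most `L / y ^ A` of the members `α` of the line have, if `3` does not
divide the norm of `α`, the following property: the cubic residue symbol `ψ` of `α`, a Dirichlet character modulo the norm of `α`,
satisfies `|∑ w (n) ψ (n)| ≤ N ^ (1 / 2 + δ)` for all `N` with `y ≤ N ≤ L ^ c`, all intervals `M < n ≤ M'` with `M ≤ N ^ C` and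
`M' ≤ M + N`, and all `w` from a given set of at most `N ^ A` functions bounded by `1`
(for example `1`, the indicator functions of all arithmetic progressions to moduli up to `N ^ (A / 3)`, the indicator function of the primes, of all integers of a given type).
The norms of the members of the line are the values of a binary quadratic form at the points of a line, for example `t ^ 2 + 3 t + 9` (the conductors of the
simplest cubic fields).

The same holds for the parallelograms `{β + s γ₁ + t γ₂ : 0 ≤ s, t < L}` with `1 ≤ |det (γ₁, γ₂)| ≤ y ^ A` and an arbitrary `β`, so in all squares, however small compared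
with the norms of their elements.

The proof counts, by their cubefree parts, the tuples of integers in a short interval whose product (with exponents `1`, `2`) is a cube up to few primes.
-/

set_option autoImplicit false

open Finset

namespace Pool.Agent.Results.MP_081200_nt.FarShortIntervals

open FewDigitCubicCharacters (Eis nm IsSymbol)

/-- the determinant of the coordinates of two Eisenstein integers -/
def det (x y : Eis) : ℤ := x.re * y.im - x.im * y.re

/-- If `3` does not divide the norm of `α` and `ψ` is the cubic residue symbol of `α`, then for all `N` with `y ≤ N ≤ X`, all functions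
`w i` with `i ∈ Λ N`, all `M ≤ N ^ C` and all `M' ≤ M + N` the sum `∑ w i (n) ψ (n)` over `M < n ≤ M'` is at most `N ^ (1 / 2 + δ)` in absolute value. -/
def SmallSums {κ : Type} (w : κ → ℕ → ℂ) (Λ : ℕ → Finset κ) (C : ℕ) (δ : ℝ) (y : ℕ) (X : ℝ) (α : Eis) : Prop :=
  ¬ (3 : ℤ) ∣ nm α → ∀ ψ : DirichletCharacter ℂ (nm α).natAbs, IsSymbol α ψ →
    ∀ N : ℕ, y ≤ N → (N : ℝ) ≤ X → ∀ i ∈ Λ N, ∀ M M' : ℕ, M ≤ N ^ C → M' ≤ M + N →
      ‖∑ n ∈ Ioc M M', w i n * ψ (n : ZMod (nm α).natAbs)‖ ≤ (N : ℝ) ^ (1 / 2 + δ)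

open Pool.Agent.X22.CC Pool.Agent.K7.H57.Cub
open Pool.Agent.Y692.QS (Ei nr ep star_re epz)

/-- the passage to the symbol of `α` -/
lemma small_of {κ : Type} (w : κ → ℕ → ℂ) (Λ : ℕ → Finset κ) (C : ℕ) (δ : ℝ) (y : ℕ) (X : ℝ) (α : Eis)
    (h : ∀ N : ℕ, y ≤ N → (N : ℝ) ≤ X → Good w Λ C δ N α) : SmallSums w Λ C δ y X α := by
  intro h3 ψ hψ N hyN hNX i hi M M' hM hM'
  obtain ⟨P, hP, hPa, hPψ⟩ := hψ
  have hP3 : ∀ π ∈ P, ¬ π ∣ 3 := by
    intro π hπ
    refine not_three (fun h => h3 (h.trans (nr_dvd ?_))) (hP π hπ)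
    exact (Multiset.dvd_prod hπ).trans hPa.dvd
  obtain ⟨χ, hχ⟩ : ∃ χ : ℕ → ℂ, χ = fun (n : ℕ) => (P.map (fun π => loc π (n : Ei))).prod := ⟨_, rfl⟩
  have hχψ : ∀ n : ℕ, ψ (n : ZMod (nm α).natAbs) = χ n := by
    intro n
    rw [hχ]
    show ψ (n : ZMod (nm α).natAbs) = (P.map (fun π => loc π (n : Ei))).prod
    by_cases hn : n.Coprime (nm α).natAbs
    · rw [hPψ n hn]
      congr 1
      apply Multiset.map_congr rfl
      intro π hπ
      exact FewDigitCubicCharacters.residue_eq (hP π hπ) (hP3 π hπ) n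
    · rw [FewDigitCubicCharacters.prod_zero α P hP hPa n hn]
      apply MulChar.map_nonunit
      rw [ZMod.isUnit_iff_coprime]
      exact hn
  have h5 := h N hyN hNX i hi χ ?_ ?_ ?_ M M' hM hM'
  · have e1 : ∑ n ∈ Ioc M M', w i n * ψ (n : ZMod (nm α).natAbs) = ∑ n ∈ Ioc M M', w i n * χ n := by
      apply sum_congr rfl
      intro n _
      rw [hχψ n]
    rw [e1]
    exact h5
  · intro n
    rw [← hχψ n]
    exact DirichletCharacter.norm_le_one ψ _
  · intro n n' _ _
    rw [← hχψ, ← hχψ, ← hχψ, Nat.cast_mul, map_mul]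
  · refine ⟨(α.re : ZMod 3), (α.im : ZMod 3), fun n hn hn3 => ?_⟩
    rw [hχ]
    exact recip hn hn3 α h3 P hP hPa

open Classical in
/-- **Cubic characters in short intervals far from the origin.** For all `A`, `C` and `δ > 0` there are `c > 0` and `y₀` such that for all `y ≥ y₀`, all `L` and all families of
weights `w i` (with `|w i (n)| ≤ 1`; for each `N` a set `Λ N` of at most `N ^ A` of them is used): on each line `{β + t γ : 0 ≤ t < L}` of Eisenstein integers with
`1 ≤ |det (β, γ)| ≤ y ^ A` all but at most `L / y ^ A` of the `L` members `α`, and in each parallelogram `{β + s γ₁ + t γ₂ : 0 ≤ s, t < L}` with `1 ≤ |det (γ₁, γ₂)| ≤ y ^ A` (`β` arbitrary)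
all but at most `L ^ 2 / y ^ A` of the `L ^ 2` members `α` have the following property: if `3` does not divide the norm of `α` and `ψ` is the cubic residue symbol of `α` (a Dirichlet character
modulo the norm of `α`), then `|∑ w i (n) ψ (n)| ≤ N ^ (1 / 2 + δ)` for all `N` with `y ≤ N ≤ L ^ c`, all `i ∈ Λ N` and all intervals `M < n ≤ M'` with `M ≤ N ^ C` and `M' ≤ M + N`. -/
theorem result (A C : ℕ) (δ : ℝ) (hδ : 0 < δ) : ∃ c : ℝ, 0 < c ∧ ∃ y₀ : ℕ, ∀ y L : ℕ, y₀ ≤ y →
    ∀ (κ : Type) (w : κ → ℕ → ℂ) (Λ : ℕ → Finset κ), (∀ i n, ‖w i n‖ ≤ 1) → (∀ N, (Λ N).card ≤ N ^ A) →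
      (∀ β γ : Eis, det β γ ≠ 0 → |det β γ| ≤ (y : ℤ) ^ A →
        (((range L).filter (fun t : ℕ => ¬ SmallSums w Λ C δ y ((L : ℝ) ^ c) (β + (t : Eis) * γ))).card : ℝ) ≤ (L : ℝ) / (y : ℝ) ^ A) ∧
      (∀ β γ₁ γ₂ : Eis, det γ₁ γ₂ ≠ 0 → |det γ₁ γ₂| ≤ (y : ℤ) ^ A →
        (((range L ×ˢ range L).filter (fun s : ℕ × ℕ => ¬ SmallSums w Λ C δ y ((L : ℝ) ^ c) (β + (s.1 : Eis) * γ₁ + (s.2 : Eis) * γ₂))).card : ℝ) ≤
          (L : ℝ) ^ 2 / (y : ℝ) ^ A) := by
  obtain ⟨c₁, hc₁, y₁, h1⟩ := law 1 A C δ hδ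
  obtain ⟨c₂, hc₂, y₂, h2⟩ := law 2 A C δ hδ
  have hmono : ∀ (y L : ℕ), 1 ≤ y → ∀ (c c' : ℝ), 0 < c → c ≤ c' → ∀ N : ℕ, y ≤ N → (N : ℝ) ≤ (L : ℝ) ^ c → (N : ℝ) ≤ (L : ℝ) ^ c' := by
    intro y L hy c c' hc hcc N hyN hN
    rcases Nat.eq_zero_or_pos L with h0 | h0
    · rw [h0, Nat.cast_zero, Real.zero_rpow hc.ne'] at hN
      have : (1 : ℝ) ≤ N := by exact_mod_cast (hy.trans hyN)
      linarith
    · exact hN.trans (Real.rpow_le_rpow_of_exponent_le (by exact_mod_cast h0) hcc)
  have hdet : ∀ (y : ℕ) (x z : Eis), |det x z| ≤ (y : ℤ) ^ A → (dt x z).natAbs ≤ y ^ A := by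
    intro y x z h
    have h3 : ((dt x z).natAbs : ℤ) ≤ (y : ℤ) ^ A := by
      rw [Int.natCast_natAbs]
      exact h
    exact_mod_cast h3
  refine ⟨min c₁ c₂, lt_min hc₁ hc₂, y₁ + y₂ + 1, fun y L hy κ w Λ hw hΛ => ⟨fun β γ hd hd' => ?_, fun β γ₁ γ₂ hd hd' => ?_⟩⟩
  · have h3 := h1 y L (dt β γ).natAbs _ (by omega) (line_aff β γ) (Int.natAbs_ne_zero.2 hd) (hdet y β γ hd') κ w Λ hw hΛ
    rw [pow_one] at h3
    refine le_trans ?_ h3
    have h4 : ((range L).filter (fun t : ℕ => ¬ SmallSums w Λ C δ y ((L : ℝ) ^ (min c₁ c₂)) (β + (t : Eis) * γ))).card ≤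
        ((Pool.Agent.TH894.NE.box 1 L).filter (fun m => ¬ ∀ N : ℕ, y ≤ N → (N : ℝ) ≤ (L : ℝ) ^ c₁ → Good w Λ C δ N (β + (m 0 : Ei) * γ))).card := by
      refine card_le_card_of_injOn (fun t => fun _ => t) ?_ ?_
      · intro t ht
        rw [mem_coe, mem_filter, mem_range] at ht
        rw [mem_coe, mem_filter, Pool.Agent.TH894.NE.mem_box]
        refine ⟨fun _ => ht.1, fun hcon => ht.2 ?_⟩
        apply small_of
        intro N hyN hN
        exact hcon N hyN (hmono y L (by omega) _ _ (lt_min hc₁ hc₂) (min_le_left _ _) N hyN hN)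
      · intro t _ t' _ h
        exact congrFun h 0
    exact_mod_cast h4
  · have h3 := h2 y L (dt γ₁ γ₂).natAbs _ (by omega) (par_aff β γ₁ γ₂) (Int.natAbs_ne_zero.2 hd) (hdet y γ₁ γ₂ hd') κ w Λ hw hΛ
    refine le_trans ?_ h3
    have h4 : ((range L ×ˢ range L).filter (fun s : ℕ × ℕ => ¬ SmallSums w Λ C δ y ((L : ℝ) ^ (min c₁ c₂)) (β + (s.1 : Eis) * γ₁ + (s.2 : Eis) * γ₂))).card ≤
        ((Pool.Agent.TH894.NE.box 2 L).filter (fun m => ¬ ∀ N : ℕ, y ≤ N → (N : ℝ) ≤ (L : ℝ) ^ c₂ → Good w Λ C δ N (β + (m 0 : Ei) * γ₁ + (m 1 : Ei) * γ₂))).card := by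
      refine card_le_card_of_injOn (fun s => ![s.1, s.2]) ?_ ?_
      · intro s hs
        rw [mem_coe, mem_filter, mem_product, mem_range, mem_range] at hs
        rw [mem_coe, mem_filter, Pool.Agent.TH894.NE.mem_box]
        refine ⟨?_, fun hcon => hs.2 ?_⟩
        · intro i
          fin_cases i
          · exact hs.1.1
          · exact hs.1.2
        · apply small_of
          intro N hyN hN
          exact hcon N hyN (hmono y L (by omega) _ _ (lt_min hc₁ hc₂) (min_le_right _ _) N hyN hN)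
      · intro s _ s' _ h
        have e1 := congrFun h 0
        have e2 := congrFun h 1
        exact Prod.ext e1 e2
    exact_mod_cast h4

end Pool.Agent.Results.MP_081200_nt.FarShortIntervals
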