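import Pool.Agent.K7.H57.Cub.LawD
import Pool.Agent.Results.MP_081200_nt.FarShortIntervals

/-!
# Cubic characters in short intervals far from the origin, for arbitrarily thin families of conductors on a line

**Theorem.** Let a base `b ≥ 2`, `A`, `C` and `δ > 0` be given. There are `c > 0` and `y₀` such that for all `y ≥ y₀` and all `β`, `γ` in `ℤ[ω]` with
`1 ≤ |det (β, γ)| ≤ y ^ A` the following holds. Take any integer `0 ≤ m < b ^ K`, prescribe for every position another digit than the digit of `m` in base `b`, and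
change `r ≤ K / 2` of the `K` digits of `m` in this way. For all but a proportion `1 / y ^ A` of the choices of the `r` positions the Eisenstein integer `α = β + t γ`, where `t` is the
number obtained, has, if `3` does not divide its norm, the following property: the cubic residue symbol `ψ` of `α`, a Dirichlet character modulo the norm of `α`,
satisfies `|∑ w (n) ψ (n)| ≤ N ^ (1 / 2 + δ)` for all `N` with `y ≤ N ≤ exp (c r)`, all intervals `M < n ≤ M'` with `M ≤ N ^ C` and `M' ≤ M + N`, and all `w` from a given set of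
at most `N ^ A` functions bounded by `1`. The same holds for the families `β + t₁ γ₁ + t₂ γ₂` with `1 ≤ |det (γ₁, γ₂)| ≤ y ^ A`, `β` arbitrary, where the digits of two numbers are
changed.

So the family has `K.choose r` members up to `b ^ K`, for example about `exp ((log Q) ^ ε)` conductors up to `Q` if `r` is a small power of `K`; the starting result on such families has
only intervals in `[1, N]`.
-/

set_option autoImplicit false

open Finset

namespace Pool.Agent.Results.MP_081200_nt.FarShortFewDigits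

open FewDigitCubicCharacters (Eis nm IsSymbol digit change)
open FarShortIntervals (det SmallSums)
open Pool.Agent.K7.H57.Cub

lemma hdet {A : ℕ} (y : ℕ) (x z : Eis) (h : |det x z| ≤ (y : ℤ) ^ A) : (dt x z).natAbs ≤ y ^ A := by
  have h3 : ((dt x z).natAbs : ℤ) ≤ (y : ℤ) ^ A := by
    rw [Int.natCast_natAbs]
    exact h
  exact_mod_cast h3

open Classical in
/-- **Cubic characters in far short intervals, few digits.** For all bases `b ≥ 2`, all `A`, `C` and `δ > 0` there are `c > 0` and `y₀` such that for all `y ≥ y₀` and all families of weights `w i`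
(with `|w i (n)| ≤ 1`; for each `N` a set `Λ N` of at most `N ^ A` of them is used) the following holds.

First, if `1 ≤ |det (β, γ)| ≤ y ^ A`, `2 r ≤ K`, `m < b ^ K` and `f j` is for each `j` a digit other than the digit number `j` of `m`, then for all but at most
`K.choose r / y ^ A` of the sets `S` of `r` of the positions `0, …, K - 1` the property `SmallSums` holds up to `exp (c r)` for `α = β + t γ`, where `t` is obtained from `m` by replacing the digits at the positions
in `S` by those of `f`: if `3` does not divide the norm of `α` and `ψ` is the cubic residue symbol of `α`, then `|∑ w i (n) ψ (n)| ≤ N ^ (1 / 2 + δ)` for all `N` with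
`y ≤ N ≤ exp (c r)`, all `i ∈ Λ N` and all intervals `M < n ≤ M'` with `M ≤ N ^ C` and `M' ≤ M + N`.

Second, the same for `α = β + t₀ γ₁ + t₁ γ₂`, where `1 ≤ |det (γ₁, γ₂)| ≤ y ^ A`, `β` is arbitrary and `r l` digits of the two numbers `m l` are changed (`l = 0, 1`), with at most
`(K 0).choose (r 0) (K 1).choose (r 1) / y ^ A` exceptions, up to `exp (c r l)` for both `l`. -/
theorem result (b : ℕ) (hb : 2 ≤ b) (A C : ℕ) (δ : ℝ) (hδ : 0 < δ) : ∃ c : ℝ, 0 < c ∧ ∃ y₀ : ℕ, ∀ y : ℕ, y₀ ≤ y →
    ∀ (κ : Type) (w : κ → ℕ → ℂ) (Λ : ℕ → Finset κ), (∀ i n, ‖w i n‖ ≤ 1) → (∀ N, (Λ N).card ≤ N ^ A) →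
      (∀ β γ : Eis, det β γ ≠ 0 → |det β γ| ≤ (y : ℤ) ^ A → ∀ K r m : ℕ, 2 * r ≤ K → m < b ^ K → ∀ f : ℕ → ℕ, (∀ j, f j < b ∧ f j ≠ digit b j m) →
        (((powersetCard r (range K)).filter
          (fun S : Finset ℕ => ¬ SmallSums w Λ C δ y (Real.exp (c * r)) (β + ((change b K m f S : ℕ) : Eis) * γ))).card : ℝ) ≤ (K.choose r : ℝ) / (y : ℝ) ^ A) ∧
      (∀ β γ₁ γ₂ : Eis, det γ₁ γ₂ ≠ 0 → |det γ₁ γ₂| ≤ (y : ℤ) ^ A → ∀ K r m : Fin 2 → ℕ, (∀ l, 2 * r l ≤ K l) → (∀ l, m l < b ^ K l) →
        ∀ f : Fin 2 → ℕ → ℕ, (∀ l j, f l j < b ∧ f l j ≠ digit b j (m l)) →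
        (((powersetCard (r 0) (range (K 0)) ×ˢ powersetCard (r 1) (range (K 1))).filter
          (fun S : Finset ℕ × Finset ℕ => ¬ SmallSums w Λ C δ y (min (Real.exp (c * r 0)) (Real.exp (c * r 1)))
            (β + ((change b (K 0) (m 0) (f 0) S.1 : ℕ) : Eis) * γ₁ + ((change b (K 1) (m 1) (f 1) S.2 : ℕ) : Eis) * γ₂))).card : ℝ) ≤
          ((K 0).choose (r 0) : ℝ) * ((K 1).choose (r 1) : ℝ) / (y : ℝ) ^ A) := by
  obtain ⟨c₁, hc₁, y₁, h1⟩ := law_digits b 1 A C hb le_rfl δ hδ
  obtain ⟨c₂, hc₂, y₂, h2⟩ := law_digits b 2 A C hb (by norm_num) δ hδ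
  refine ⟨min c₁ c₂, lt_min hc₁ hc₂, y₁ + y₂ + 1, fun y hy κ w Λ hw hΛ =>
    ⟨fun β γ hd hd' K r m hrK hm f hf => ?_, fun β γ₁ γ₂ hd hd' K r m hrK hm f hf => ?_⟩⟩
  · have h3 := h1 (fun _ => K) (fun _ => r) y (dt β γ).natAbs _ (fun _ => hrK) (by omega) (line_aff β γ) (Int.natAbs_ne_zero.2 hd) (hdet y β γ hd')
      (fun _ => m) (fun _ => hm) (fun _ => f) (fun _ => hf) κ w Λ hw hΛ
    rw [Fin.prod_univ_one] at h3
    have e1 : (K.choose r : ℝ) / (y : ℝ) ^ A = 1 / (y : ℝ) ^ A * (K.choose r : ℝ) := by ring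
    rw [e1]
    refine le_trans ?_ h3
    have h4 : ((powersetCard r (range K)).filter
          (fun S : Finset ℕ => ¬ SmallSums w Λ C δ y (Real.exp (min c₁ c₂ * r)) (β + ((change b K m f S : ℕ) : Eis) * γ))).card ≤
        ((Fintype.piFinset (fun _ : Fin 1 => powersetCard r (range K))).filter (fun T => ¬ ∀ N : ℕ, y ≤ N → (∀ _l : Fin 1, (N : ℝ) ≤ Real.exp (c₁ * r)) →
          Good w Λ C δ N (β + ((Pool.Agent.TH894.SM.change b K m f (T 0) : ℕ) : Pool.Agent.Y692.QS.Ei) * γ))).card := by
      refine card_le_card_of_injOn (fun S => fun _ => S) ?_ ?_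
      · intro S hS
        rw [mem_coe, mem_filter] at hS
        rw [mem_coe, mem_filter, Fintype.mem_piFinset]
        refine ⟨fun _ => hS.1, fun hcon => hS.2 ?_⟩
        apply FarShortIntervals.small_of
        intro N hyN hN
        refine hcon N hyN (fun _ => hN.trans (Real.exp_le_exp.2 ?_))
        exact mul_le_mul_of_nonneg_right (min_le_left _ _) (Nat.cast_nonneg _)
      · intro S _ S' _ h
        exact congrFun h 0
    exact_mod_cast h4
  · have h3 := h2 K r y (dt γ₁ γ₂).natAbs _ hrK (by omega) (par_aff β γ₁ γ₂) (Int.natAbs_ne_zero.2 hd) (hdet y γ₁ γ₂ hd') m hm f hf κ w Λ hw hΛ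
    rw [Fin.prod_univ_two] at h3
    have e1 : ((K 0).choose (r 0) : ℝ) * ((K 1).choose (r 1) : ℝ) / (y : ℝ) ^ A = 1 / (y : ℝ) ^ A * (((K 0).choose (r 0) : ℝ) * ((K 1).choose (r 1) : ℝ)) := by ring
    rw [e1]
    refine le_trans ?_ h3
    have h4 : ((powersetCard (r 0) (range (K 0)) ×ˢ powersetCard (r 1) (range (K 1))).filter
          (fun S : Finset ℕ × Finset ℕ => ¬ SmallSums w Λ C δ y (min (Real.exp (min c₁ c₂ * r 0)) (Real.exp (min c₁ c₂ * r 1)))
            (β + ((change b (K 0) (m 0) (f 0) S.1 : ℕ) : Eis) * γ₁ + ((change b (K 1) (m 1) (f 1) S.2 : ℕ) : Eis) * γ₂))).card ≤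
        ((Fintype.piFinset (fun l => powersetCard (r l) (range (K l)))).filter (fun T => ¬ ∀ N : ℕ, y ≤ N → (∀ l, (N : ℝ) ≤ Real.exp (c₂ * r l)) →
          Good w Λ C δ N (β + ((Pool.Agent.TH894.SM.change b (K 0) (m 0) (f 0) (T 0) : ℕ) : Pool.Agent.Y692.QS.Ei) * γ₁ +
            ((Pool.Agent.TH894.SM.change b (K 1) (m 1) (f 1) (T 1) : ℕ) : Pool.Agent.Y692.QS.Ei) * γ₂))).card := by
      refine card_le_card_of_injOn (fun S => ![S.1, S.2]) ?_ ?_
      · intro S hS
        rw [mem_coe, mem_filter, mem_product] at hS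
        rw [mem_coe, mem_filter, Fintype.mem_piFinset]
        refine ⟨?_, fun hcon => hS.2 ?_⟩
        · intro i
          fin_cases i
          · exact hS.1.1
          · exact hS.1.2
        · apply FarShortIntervals.small_of
          intro N hyN hN
          refine hcon N hyN (fun l => ?_)
          have h5 : min c₁ c₂ * (r l : ℝ) ≤ c₂ * r l := mul_le_mul_of_nonneg_right (min_le_right _ _) (Nat.cast_nonneg _)
          fin_cases l
          · exact (hN.trans (min_le_left _ _)).trans (Real.exp_le_exp.2 h5)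
          · exact (hN.trans (min_le_right _ _)).trans (Real.exp_le_exp.2 h5)
      · intro s _ s' _ h
        have e1 := congrFun h 0
        have e2 := congrFun h 1
        exact Prod.ext e1 e2
    exact_mod_cast h4

end Pool.Agent.Results.MP_081200_nt.FarShortFewDigits
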