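import Pool.Agent.K7.H67.CUB.Comp
import Pool.Agent.Results.MP_081200_nt.FarShortIntervals

/-!
# Square-root cancellation in far short intervals for the cubic characters of almost all members of every family of conductors
# which is equidistributed in the residue classes to small moduli; multiplicative and multilinear families

**Theorem.** Let `t i`, `i ∈ T`, be any finite family of natural numbers such that for all `q ≤ X` each residue class modulo `q`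
contains `|T| / q` of the `t i` up to an error of at most `|T| / X`. Then for all Eisenstein integers `β`, `γ` with
`1 ≤ |det (β, γ)| ≤ y ^ A` all but at most `|T| / y ^ A` of the numbers `α = β + t i γ` have, if `3` does not divide the norm of `α`, the
following property: the cubic residue symbol `ψ` of `α`, a Dirichlet character modulo the norm of `α`, satisfies `|∑ w (n) ψ (n)| ≤ N ^ (1 / 2 + δ)`
for all `N` with `y ≤ N ≤ X ^ c`, all intervals `M < n ≤ M'` with `M ≤ N ^ C` and `M' ≤ M + N`, and all `w` from a given set of at most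
`N ^ A` functions bounded by `1`. The same holds for `α = β + t i γ₁ + t' j γ₂` and two such families. The size of the `t i` and of the
family is arbitrary.

Families to which this applies, with `X` a power of the prime `p`, and with as few as `p ^ ε` members below `p`, for every `ε > 0`:

* the least residues of `b u ^ m + t` modulo a prime `p`, for `1 ≤ m ≤ x` where `p ^ ε ≤ x` and `x` is at most the order of `u` (for example the elements of a
  multiplicative subgroup of order at least `p ^ ε`, of its cosets, of pieces of geometric progressions);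
* the least residues of `u_1 ⋯ u_k + f_1 + … + f_k` where `u_i` runs over an arbitrary set of at least `p ^ ε` residues and `f_i` is an arbitrary function of the
  variables other than `u_i`, if `k ≥ k₀ (ε)`.

These use the theorems of Bourgain, Glibichuk and Konyagin type on exponential sums, proved in the helper files.
-/

set_option autoImplicit false

open Finset

namespace Pool.Agent.Results.MP_081200_nt.MultiplicativeFamilies

open FewDigitCubicCharacters (Eis nm IsSymbol)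
open FarShortIntervals (det SmallSums)

/-- Modulo each `q ≤ X`, each residue class contains `|T| / q` of the numbers `t i`, `i ∈ T`, up to an error of at most `|T| / X`. -/
def Equidistributed {ι : Type} (T : Finset ι) (t : ι → ℕ) (X : ℕ) : Prop :=
  ∀ q : ℕ, 1 ≤ q → q ≤ X → ∀ r < q,
    |((T.filter (fun i => t i % q = r)).card : ℝ) - (T.card : ℝ) / q| ≤ (T.card : ℝ) / X

open Classical in
/-- On every line `β + t γ` with `1 ≤ |det (β, γ)| ≤ y ^ A` the property `SmallSums` (up to `Y`) holds for all but at most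
`|T| / y ^ A` of the `α = β + t i γ`, `i ∈ T`. -/
def MostOnLines {κ ι : Type} (w : κ → ℕ → ℂ) (Λ : ℕ → Finset κ) (A C : ℕ) (δ : ℝ) (y : ℕ) (Y : ℝ) (T : Finset ι) (t : ι → ℕ) : Prop :=
  ∀ β γ : Eis, det β γ ≠ 0 → |det β γ| ≤ (y : ℤ) ^ A →
    ((T.filter (fun i => ¬ SmallSums w Λ C δ y Y (β + (t i : Eis) * γ))).card : ℝ) ≤ (T.card : ℝ) / (y : ℝ) ^ A

open Classical in
/-- For all `β` and all `γ₁`, `γ₂` with `1 ≤ |det (γ₁, γ₂)| ≤ y ^ A` the property `SmallSums` (up to `Y`) holds for all but at most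
`|T| |T'| / y ^ A` of the `α = β + t i γ₁ + t' j γ₂`, `i ∈ T`, `j ∈ T'`. -/
def MostInPlane {κ ι ι' : Type} (w : κ → ℕ → ℂ) (Λ : ℕ → Finset κ) (A C : ℕ) (δ : ℝ) (y : ℕ) (Y : ℝ) (T : Finset ι) (t : ι → ℕ)
    (T' : Finset ι') (t' : ι' → ℕ) : Prop :=
  ∀ β γ₁ γ₂ : Eis, det γ₁ γ₂ ≠ 0 → |det γ₁ γ₂| ≤ (y : ℤ) ^ A →
    (((T ×ˢ T').filter (fun z => ¬ SmallSums w Λ C δ y Y (β + (t z.1 : Eis) * γ₁ + (t' z.2 : Eis) * γ₂))).card : ℝ) ≤
      (T.card : ℝ) * (T'.card : ℝ) / (y : ℝ) ^ A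

/-- the least residue of `b u ^ m + a` modulo `p` -/
def power {p : ℕ} (b a : ZMod p) (u : (ZMod p)ˣ) (m : ℕ) : ℕ := (b * ((u ^ m : (ZMod p)ˣ) : ZMod p) + a).val

/-- the least residue of `u_1 ⋯ u_k + f_1 (u) + … + f_k (u)` modulo `p` -/
def multilinear {p k : ℕ} (f : Fin k → (Fin k → ZMod p) → ZMod p) (u : Fin k → ZMod p) : ℕ := (∏ i, u i + ∑ i, f i u).val

open Pool.Agent.K7.H57.Cub Pool.Agent.K7.H67.CUB

lemma hdet {A : ℕ} (y : ℕ) (x z : Eis) (h : |det x z| ≤ (y : ℤ) ^ A) : (dt x z).natAbs ≤ y ^ A := by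
  have h3 : ((dt x z).natAbs : ℤ) ≤ (y : ℤ) ^ A := by
    rw [Int.natCast_natAbs]
    exact h
  exact_mod_cast h3

/-- the criterion -/
lemma criterion (A C : ℕ) (δ : ℝ) (hδ : 0 < δ) : ∃ c : ℝ, 0 < c ∧ c ≤ 1 ∧ ∃ y₀ : ℕ, 1 ≤ y₀ ∧ ∀ y : ℕ, y₀ ≤ y →
    ∀ (κ : Type) (w : κ → ℕ → ℂ) (Λ : ℕ → Finset κ), (∀ i n, ‖w i n‖ ≤ 1) → (∀ N, (Λ N).card ≤ N ^ A) →
    ∀ (X : ℕ) (ι ι' : Type) (T : Finset ι) (t : ι → ℕ) (T' : Finset ι') (t' : ι' → ℕ), Equidistributed T t X → Equidistributed T' t' X →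
      MostOnLines w Λ A C δ y ((X : ℝ) ^ c) T t ∧ MostInPlane w Λ A C δ y ((X : ℝ) ^ c) T t T' t' := by
  classical
  obtain ⟨c₁, hc₁, y₁, h1⟩ := lawF 1 A C δ hδ
  obtain ⟨c₂, hc₂, y₂, h2⟩ := lawF 2 A C δ hδ
  refine ⟨min (min c₁ (c₂ / 2)) 1, by positivity, min_le_right _ _, y₁ + y₂ + 17, by omega,
    fun y hy κ w Λ hw hΛ X ι ι' T t T' t' hT hT' => ?_⟩
  obtain ⟨c, hc⟩ : ∃ c, c = min (min c₁ (c₂ / 2)) 1 := ⟨_, rfl⟩
  rw [← hc]
  have hc0 : 0 < c := by rw [hc]; positivity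
  have hcc₁ : c ≤ c₁ := by rw [hc]; exact (min_le_left _ _).trans (min_le_left _ _)
  have hcc₂ : c ≤ c₂ / 2 := by rw [hc]; exact (min_le_left _ _).trans (min_le_right _ _)
  have hc1 : c ≤ 1 := by rw [hc]; exact min_le_right _ _
  have hX1 : ∀ N : ℕ, y ≤ N → (N : ℝ) ≤ (X : ℝ) ^ c → 1 ≤ X := by
    intro N hyN hN
    apply Nat.one_le_iff_ne_zero.2
    rintro rfl
    rw [Nat.cast_zero, Real.zero_rpow hc0.ne'] at hN
    have : (1 : ℝ) ≤ N := by exact_mod_cast (by omega : 1 ≤ N)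
    linarith
  refine ⟨fun β γ hd hd' => ?_, fun β γ₁ γ₂ hd hd' => ?_⟩
  · have h3 := h1 y X (dt β γ).natAbs _ (by omega) (line_aff β γ) (Int.natAbs_ne_zero.2 hd) (hdet y β γ hd') ι T
      (fun i => fun _ : Fin 1 => t i) (equi_line T t X hT) κ w Λ hw hΛ
    refine le_trans ?_ h3
    have h4 : (T.filter (fun i => ¬ SmallSums w Λ C δ y ((X : ℝ) ^ c) (β + (t i : Eis) * γ))).card ≤
        (T.filter (fun i => ¬ ∀ N : ℕ, y ≤ N → (N : ℝ) ≤ (X : ℝ) ^ c₁ → Good w Λ C δ N (β + (t i : Pool.Agent.Y692.QS.Ei) * γ))).card := by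
      apply card_le_card
      intro i hi
      rw [mem_filter] at hi ⊢
      refine ⟨hi.1, fun hcon => hi.2 ?_⟩
      apply FarShortIntervals.small_of
      intro N hyN hN
      refine hcon N hyN (hN.trans (Real.rpow_le_rpow_of_exponent_le ?_ hcc₁))
      exact_mod_cast hX1 N hyN hN
    exact_mod_cast h4
  · have h3 := h2 y (X / 2) (dt γ₁ γ₂).natAbs _ (by omega) (par_aff β γ₁ γ₂) (Int.natAbs_ne_zero.2 hd) (hdet y γ₁ γ₂ hd') (ι × ι') (T ×ˢ T')
      (fun z => ![t z.1, t' z.2]) (equi_par T T' t t' X hT hT') κ w Λ hw hΛ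
    rw [card_product] at h3
    push_cast at h3
    refine le_trans ?_ h3
    have h4 : ((T ×ˢ T').filter (fun z => ¬ SmallSums w Λ C δ y ((X : ℝ) ^ c) (β + (t z.1 : Eis) * γ₁ + (t' z.2 : Eis) * γ₂))).card ≤
        ((T ×ˢ T').filter (fun z => ¬ ∀ N : ℕ, y ≤ N → (N : ℝ) ≤ ((X / 2 : ℕ) : ℝ) ^ c₂ →
          Good w Λ C δ N (β + (t z.1 : Pool.Agent.Y692.QS.Ei) * γ₁ + (t' z.2 : Pool.Agent.Y692.QS.Ei) * γ₂))).card := by
      apply card_le_card
      intro z hz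
      rw [mem_filter] at hz ⊢
      refine ⟨hz.1, fun hcon => hz.2 ?_⟩
      apply FarShortIntervals.small_of
      intro N hyN hN
      refine hcon N hyN (hN.trans ?_)
      -- `X ^ c ≤ (X / 2) ^ c₂`
      have hX := hX1 N hyN hN
      have hXr : (1 : ℝ) ≤ X := by exact_mod_cast hX
      have hX16 : 16 ≤ X := by
        have h5 : (N : ℝ) ≤ X := by
          refine hN.trans ?_
          calc (X : ℝ) ^ c ≤ (X : ℝ) ^ (1 : ℝ) := Real.rpow_le_rpow_of_exponent_le hXr hc1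
            _ = X := Real.rpow_one _
        have h6 : N ≤ X := by exact_mod_cast h5
        omega
      have h8 : (X : ℝ) ^ (1 / 2 : ℝ) ≤ ((X / 2 : ℕ) : ℝ) := by
        rw [← Real.sqrt_eq_rpow]
        apply Real.sqrt_le_iff.2 ⟨Nat.cast_nonneg _, ?_⟩
        have h9 : X ≤ (X / 2) ^ 2 := by
          obtain ⟨m, hm⟩ : ∃ m, m = X / 2 := ⟨_, rfl⟩
          rw [← hm]
          have h10 : X ≤ 2 * m + 1 := by omega
          have h11 : 8 ≤ m := by omega
          nlinarith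
        exact_mod_cast h9
      calc (X : ℝ) ^ c ≤ (X : ℝ) ^ (c₂ / 2) := Real.rpow_le_rpow_of_exponent_le hXr hcc₂
        _ = ((X : ℝ) ^ (1 / 2 : ℝ)) ^ c₂ := by
            rw [← Real.rpow_mul (by linarith)]
            congr 1
            ring
        _ ≤ _ := Real.rpow_le_rpow (by positivity) h8 hc₂.le
    exact_mod_cast h4

/-- If the family is equidistributed up to a power of the prime `p`, the criterion holds up to a power of `p`. -/
lemma criterion_prime (A C : ℕ) (δ : ℝ) (hδ : 0 < δ) (η : ℝ) (hη : 0 < η) (p₀ : ℕ) : ∃ c : ℝ, 0 < c ∧ ∃ y₀ : ℕ, ∀ y : ℕ, y₀ ≤ y →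
    ∀ (κ : Type) (w : κ → ℕ → ℂ) (Λ : ℕ → Finset κ), (∀ i n, ‖w i n‖ ≤ 1) → (∀ N, (Λ N).card ≤ N ^ A) →
    ∀ (p p' : ℕ) (ι ι' : Type) (T : Finset ι) (t : ι → ℕ) (T' : Finset ι') (t' : ι' → ℕ),
      (p₀ ≤ p → ∀ X : ℕ, (X : ℝ) ≤ (p : ℝ) ^ η → Equidistributed T t X) →
      (p₀ ≤ p' → ∀ X : ℕ, (X : ℝ) ≤ (p' : ℝ) ^ η → Equidistributed T' t' X) →
      MostOnLines w Λ A C δ y ((p : ℝ) ^ c) T t ∧ MostInPlane w Λ A C δ y (min ((p : ℝ) ^ c) ((p' : ℝ) ^ c)) T t T' t' := by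
  classical
  obtain ⟨c, hc, hc1, y₁, hy₁, h⟩ := criterion A C δ hδ
  -- for `N ≤ p ^ (c η / 2)` and `X = ⌊p ^ η⌋` we have `N ≤ X ^ c`
  obtain ⟨e, he⟩ : ∃ e, e = min (c * η / 2) 1 := ⟨_, rfl⟩
  have he0 : 0 < e := by rw [he]; positivity
  have he1 : e ≤ 1 := by rw [he]; exact min_le_right _ _
  have hec : e ≤ c * η / 2 := by rw [he]; exact min_le_left _ _
  obtain ⟨p₁, hp₁⟩ : ∃ p₁ : ℕ, ∀ p : ℕ, p₁ ≤ p → (2 : ℝ) ≤ (p : ℝ) ^ (η / 2) := by
    have h1 : Filter.Tendsto (fun x : ℝ => x ^ (η / 2)) Filter.atTop Filter.atTop := tendsto_rpow_atTop (by positivity)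
    exact Filter.eventually_atTop.1 ((h1.comp tendsto_natCast_atTop_atTop).eventually (Filter.eventually_ge_atTop _))
  refine ⟨e, he0, y₁ + p₀ + p₁ + 1, fun y hy κ w Λ hw hΛ p p' ι ι' T t T' t' hT hT' => ?_⟩
  have hbig : ∀ (q N : ℕ), y ≤ N → (N : ℝ) ≤ (q : ℝ) ^ e → N ≤ q := by
    intro q N hyN hN
    have hq : (1 : ℝ) ≤ q := by
      have : 1 ≤ q := by
        apply Nat.one_le_iff_ne_zero.2
        rintro rfl
        rw [Nat.cast_zero, Real.zero_rpow he0.ne'] at hN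
        have : (1 : ℝ) ≤ N := by exact_mod_cast (by omega : 1 ≤ N)
        linarith
      exact_mod_cast this
    have h1 : (N : ℝ) ≤ q := by
      refine hN.trans ?_
      calc (q : ℝ) ^ e ≤ (q : ℝ) ^ (1 : ℝ) := Real.rpow_le_rpow_of_exponent_le hq he1
        _ = q := Real.rpow_one _
    exact_mod_cast h1
  have hkey : ∀ q : ℕ, y ≤ q → ((q : ℝ) ^ e ≤ ((⌊(q : ℝ) ^ η⌋₊ : ℕ) : ℝ) ^ c) := by
    intro q hq
    have hq1 : (1 : ℝ) ≤ q := by exact_mod_cast (by omega : 1 ≤ q)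
    have hq0 : (0 : ℝ) < q := by linarith
    have h1 := hp₁ q (by omega)
    have h2 : (q : ℝ) ^ (η / 2) ≤ (⌊(q : ℝ) ^ η⌋₊ : ℕ) := by
      have h3 : (q : ℝ) ^ η = (q : ℝ) ^ (η / 2) * (q : ℝ) ^ (η / 2) := by
        rw [← Real.rpow_add hq0]
        congr 1
        ring
      have h4 := Nat.lt_floor_add_one ((q : ℝ) ^ η)
      rw [h3] at h4 ⊢
      nlinarith
    calc (q : ℝ) ^ e ≤ (q : ℝ) ^ (c * η / 2) := Real.rpow_le_rpow_of_exponent_le hq1 hec
      _ = ((q : ℝ) ^ (η / 2)) ^ c := by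
          rw [← Real.rpow_mul hq0.le]
          congr 1
          ring
      _ ≤ _ := Real.rpow_le_rpow (by positivity) h2 hc.le
  have hmono : ∀ (Y Y' : ℝ) (α : Eis), (∀ N : ℕ, y ≤ N → (N : ℝ) ≤ Y → (N : ℝ) ≤ Y') → SmallSums w Λ C δ y Y' α → SmallSums w Λ C δ y Y α :=
    fun Y Y' α hYY hs h3 ψ hψ N hyN hN => hs h3 ψ hψ N hyN (hYY N hyN hN)
  constructor
  · by_cases hp : y ≤ p
    · have h1 := (h y (by omega) κ w Λ hw hΛ ⌊(p : ℝ) ^ η⌋₊ ι ι T t T t (hT (by omega) _ (Nat.floor_le (by positivity)))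
        (hT (by omega) _ (Nat.floor_le (by positivity)))).1
      intro β γ hd hd'
      refine le_trans ?_ (h1 β γ hd hd')
      apply Nat.cast_le.2
      apply card_le_card
      intro i hi
      rw [mem_filter] at hi ⊢
      exact ⟨hi.1, fun hcon => hi.2 (hmono _ _ _ (fun N _ hN => hN.trans (hkey p hp)) hcon)⟩
    · intro β γ hd hd'
      rw [filter_false_of_mem]
      · rw [card_empty, Nat.cast_zero]
        positivity
      · intro i _ hcon
        apply hcon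
        intro h3 ψ hψ N hyN hN
        exfalso
        have := hbig p N hyN hN
        omega
  · obtain ⟨q, hq⟩ : ∃ q, q = min p p' := ⟨_, rfl⟩
    have hqp : ∀ N : ℕ, (N : ℝ) ≤ min ((p : ℝ) ^ e) ((p' : ℝ) ^ e) → (N : ℝ) ≤ (q : ℝ) ^ e := by
      intro N hN
      rcases min_choice p p' with h1 | h1
      · rw [hq, h1]
        exact hN.trans (min_le_left _ _)
      · rw [hq, h1]
        exact hN.trans (min_le_right _ _)
    have hqp1 : q ≤ p := by rw [hq]; exact min_le_left _ _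
    have hqp2 : q ≤ p' := by rw [hq]; exact min_le_right _ _
    by_cases hqy : y ≤ q
    · have hX : ((⌊(q : ℝ) ^ η⌋₊ : ℕ) : ℝ) ≤ (q : ℝ) ^ η := Nat.floor_le (by positivity)
      have hX1 : (q : ℝ) ^ η ≤ (p : ℝ) ^ η := Real.rpow_le_rpow (Nat.cast_nonneg _) (by exact_mod_cast hqp1) hη.le
      have hX2 : (q : ℝ) ^ η ≤ (p' : ℝ) ^ η := Real.rpow_le_rpow (Nat.cast_nonneg _) (by exact_mod_cast hqp2) hη.le
      have h1 := (h y (by omega) κ w Λ hw hΛ ⌊(q : ℝ) ^ η⌋₊ ι ι' T t T' t' (hT (by omega) _ (hX.trans hX1))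
        (hT' (by omega) _ (hX.trans hX2))).2
      intro β γ₁ γ₂ hd hd'
      refine le_trans ?_ (h1 β γ₁ γ₂ hd hd')
      apply Nat.cast_le.2
      apply card_le_card
      intro z hz
      rw [mem_filter] at hz ⊢
      exact ⟨hz.1, fun hcon => hz.2 (hmono _ _ _ (fun N _ hN => (hqp N hN).trans (hkey q hqy)) hcon)⟩
    · intro β γ₁ γ₂ hd hd'
      rw [filter_false_of_mem]
      · rw [card_empty, Nat.cast_zero]
        positivity
      · intro i _ hcon
        apply hcon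
        intro h3 ψ hψ N hyN hN
        exfalso
        have := hbig q N hyN (hqp N hN)
        omega

/-- **Cubic characters in far short intervals, equidistributed families.** See the introduction of the file. In the first part `c` and `y₀` depend on
`A`, `C`, `δ` only; in the second part also on `ε`, in the third part also on `ε` and `k ≥ k₀ (ε)`. -/
theorem result (A C : ℕ) (δ : ℝ) (hδ : 0 < δ) :
    (∃ c : ℝ, 0 < c ∧ ∃ y₀ : ℕ, ∀ y : ℕ, y₀ ≤ y →
      ∀ (κ : Type) (w : κ → ℕ → ℂ) (Λ : ℕ → Finset κ), (∀ i n, ‖w i n‖ ≤ 1) → (∀ N, (Λ N).card ≤ N ^ A) →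
      ∀ (X : ℕ) (ι ι' : Type) (T : Finset ι) (t : ι → ℕ) (T' : Finset ι') (t' : ι' → ℕ), Equidistributed T t X → Equidistributed T' t' X →
        MostOnLines w Λ A C δ y ((X : ℝ) ^ c) T t ∧ MostInPlane w Λ A C δ y ((X : ℝ) ^ c) T t T' t') ∧
    (∀ ε : ℝ, 0 < ε → ∃ c : ℝ, 0 < c ∧ ∃ y₀ : ℕ, ∀ y : ℕ, y₀ ≤ y →
      ∀ (κ : Type) (w : κ → ℕ → ℂ) (Λ : ℕ → Finset κ), (∀ i n, ‖w i n‖ ≤ 1) → (∀ N, (Λ N).card ≤ N ^ A) →
      ∀ p p' : ℕ, p.Prime → p'.Prime → ∀ (b a : ZMod p) (u : (ZMod p)ˣ) (x : ℕ) (b' a' : ZMod p') (u' : (ZMod p')ˣ) (x' : ℕ),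
        b ≠ 0 → (p : ℝ) ^ ε ≤ x → x ≤ orderOf u → b' ≠ 0 → (p' : ℝ) ^ ε ≤ x' → x' ≤ orderOf u' →
        MostOnLines w Λ A C δ y ((p : ℝ) ^ c) (Icc 1 x) (power b a u) ∧
        MostInPlane w Λ A C δ y (min ((p : ℝ) ^ c) ((p' : ℝ) ^ c)) (Icc 1 x) (power b a u) (Icc 1 x') (power b' a' u')) ∧
    (∀ ε : ℝ, 0 < ε → ∃ k₀ : ℕ, ∀ k : ℕ, k₀ ≤ k → ∃ c : ℝ, 0 < c ∧ ∃ y₀ : ℕ, ∀ y : ℕ, y₀ ≤ y →
      ∀ (κ : Type) (w : κ → ℕ → ℂ) (Λ : ℕ → Finset κ), (∀ i n, ‖w i n‖ ≤ 1) → (∀ N, (Λ N).card ≤ N ^ A) →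
      ∀ p p' : ℕ, p.Prime → p'.Prime → ∀ (S : Fin k → Finset (ZMod p)) (f : Fin k → (Fin k → ZMod p) → ZMod p)
        (S' : Fin k → Finset (ZMod p')) (f' : Fin k → (Fin k → ZMod p') → ZMod p'),
        (∀ i, (p : ℝ) ^ ε ≤ (S i).card) → (∀ i, (p' : ℝ) ^ ε ≤ (S' i).card) →
        (∀ (i : Fin k) (u v : Fin k → ZMod p), (∀ j, j ≠ i → u j = v j) → f i u = f i v) →
        (∀ (i : Fin k) (u v : Fin k → ZMod p'), (∀ j, j ≠ i → u j = v j) → f' i u = f' i v) →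
        MostOnLines w Λ A C δ y ((p : ℝ) ^ c) (Fintype.piFinset S) (multilinear f) ∧
        MostInPlane w Λ A C δ y (min ((p : ℝ) ^ c) ((p' : ℝ) ^ c)) (Fintype.piFinset S) (multilinear f) (Fintype.piFinset S') (multilinear f')) := by
  refine ⟨?_, fun ε hε => ?_, fun ε hε => ?_⟩
  · obtain ⟨c, hc, -, y₀, -, h⟩ := criterion A C δ hδ
    exact ⟨c, hc, y₀, h⟩
  · obtain ⟨γ, hγ, p₁, hsup⟩ := Pool.Agent.K7.H67.BG.pw_sup ε hε
    obtain ⟨p₂, heq⟩ := equi_of (min γ 1) (by positivity) (min_le_right _ _)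
    obtain ⟨c, hc, y₀, h⟩ := criterion_prime A C δ hδ (min γ 1 / 2) (by positivity) (p₁ + p₂)
    have key : ∀ p : ℕ, p.Prime → p₁ + p₂ ≤ p → ∀ (b a : ZMod p) (u : (ZMod p)ˣ) (x : ℕ), b ≠ 0 → (p : ℝ) ^ ε ≤ x → x ≤ orderOf u →
        ∀ X : ℕ, (X : ℝ) ≤ (p : ℝ) ^ (min γ 1 / 2) → Equidistributed (Icc 1 x) (power b a u) X := by
      intro p hpp hp b a u x hb hx hxu X hX
      have : NeZero p := ⟨hpp.ne_zero⟩
      refine heq p (by omega) hpp ℕ (Icc 1 x) (power b a u) (fun i _ => ZMod.val_lt _) ?_ X hX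
      intro j hj1 hjp
      refine (hsup p (by omega) hpp b a u x hb hx hxu j hj1 hjp).trans ?_
      apply mul_le_mul_of_nonneg_left _ (Nat.cast_nonneg _)
      apply Real.rpow_le_rpow_of_exponent_le (by exact_mod_cast hpp.one_lt.le)
      exact neg_le_neg (min_le_left _ _)
    refine ⟨c, hc, y₀, fun y hy κ w Λ hw hΛ p p' hpp hpp' b a u x b' a' u' x' hb hx hxu hb' hx' hxu' => ?_⟩
    exact h y hy κ w Λ hw hΛ p p' ℕ ℕ (Icc 1 x) (power b a u) (Icc 1 x') (power b' a' u')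
      (fun hp X hX => key p hpp hp b a u x hb hx hxu X hX) (fun hp X hX => key p' hpp' hp b' a' u' x' hb' hx' hxu' X hX)
  · obtain ⟨k₀, hk₀⟩ := Pool.Agent.K7.H67.BG.vec_sup ε hε
    refine ⟨k₀, fun k hk => ?_⟩
    obtain ⟨γ, hγ, p₁, hsup⟩ := hk₀ k hk
    obtain ⟨p₂, heq⟩ := equi_of (min γ 1) (by positivity) (min_le_right _ _)
    obtain ⟨c, hc, y₀, h⟩ := criterion_prime A C δ hδ (min γ 1 / 2) (by positivity) (p₁ + p₂)
    have key : ∀ p : ℕ, p.Prime → p₁ + p₂ ≤ p → ∀ (S : Fin k → Finset (ZMod p)) (f : Fin k → (Fin k → ZMod p) → ZMod p),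
        (∀ i, (p : ℝ) ^ ε ≤ (S i).card) → (∀ (i : Fin k) (u v : Fin k → ZMod p), (∀ j, j ≠ i → u j = v j) → f i u = f i v) →
        ∀ X : ℕ, (X : ℝ) ≤ (p : ℝ) ^ (min γ 1 / 2) → Equidistributed (Fintype.piFinset S) (multilinear f) X := by
      intro p hpp hp S f hS hf X hX
      have : NeZero p := ⟨hpp.ne_zero⟩
      refine heq p (by omega) hpp (Fin k → ZMod p) (Fintype.piFinset S) (multilinear f) (fun i _ => ZMod.val_lt _) ?_ X hX
      intro j hj1 hjp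
      refine (hsup p (by omega) hpp S hS f hf j hj1 hjp).trans ?_
      apply mul_le_mul_of_nonneg_left _ (Nat.cast_nonneg _)
      apply Real.rpow_le_rpow_of_exponent_le (by exact_mod_cast hpp.one_lt.le)
      exact neg_le_neg (min_le_left _ _)
    refine ⟨c, hc, y₀, fun y hy κ w Λ hw hΛ p p' hpp hpp' S f S' f' hS hS' hf hf' => ?_⟩
    exact h y hy κ w Λ hw hΛ p p' _ _ (Fintype.piFinset S) (multilinear f) (Fintype.piFinset S') (multilinear f')
      (fun hp X hX => key p hpp hp S f hS hf X hX) (fun hp X hX => key p' hpp' hp S' f' hS' hf' X hX)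

end Pool.Agent.Results.MP_081200_nt.MultiplicativeFamilies
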