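import Pool.Agent.K7.H67.VDC.Smooth
import Pool.Agent.Results.MP_081200_nt.MultiplicativeFamilies

/-!
# Square-root cancellation in far short intervals for the cubic characters of almost all conductors `β + ⌊F (n)⌋ γ`, `F` a smooth function,
# in particular for the conductors `β + ⌊a n ^ r + b⌋ γ` on the sequences of Piatetski-Shapiro

**Theorem.** Let `F` be a smooth function which does not grow like a polynomial of integral degree: for some `k` its derivative of order `k + 1` is between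
`lam` and `B lam` on `[N, 3 N]` with `N ^ (-1 + τ) ≤ lam ≤ N ^ (-τ)`, and the next derivative is nonpositive. Let `T` be an interval of `L` integers
`N ≤ n < N + L` with `N ^ (1 - c) ≤ L ≤ N`. Then for all Eisenstein integers `β`, `γ` with `1 ≤ |det (β, γ)| ≤ y ^ A` all but at most `L / y ^ A` of the
numbers `α = β + ⌊F (n)⌋ γ`, `n ∈ T`, have, if `3` does not divide the norm of `α`, the following property: the cubic residue symbol `ψ` of `α`, a Dirichlet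
character modulo the norm of `α`, satisfies `|∑ w (n) ψ (n)| ≤ M ^ (1 / 2 + δ)` for all `M` with `y ≤ M ≤ N ^ c`, all intervals `K < n ≤ K'` with `K ≤ M ^ C`
and `K' ≤ K + M`, and all `w` from a given set of at most `M ^ A` functions bounded by `1`. The same holds for
`α = β + ⌊F (n)⌋ γ₁ + ⌊G (m)⌋ γ₂` with two such functions.

An example is `F (x) = a x ^ r + b` with real `r > 0` which is not an integer, `N ^ (-c) ≤ a ≤ N ^ c` and `b ≥ 0`: the coordinates of `α` run over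
sequences of Piatetski-Shapiro. For `r > 1` these are thin subsets (about `X ^ (1 / r)` elements below `X`) without any multiplicative, digital or
interval structure.

The proof shows with the inequality of van der Corput that the sums `∑ e (m F (n) / q)` have a power saving, and passes with a positive kernel
(the square of the geometric kernel, and Parseval's identity) to the residue classes modulo `q` of the integer parts; the criterion
for equidistributed families in `MultiplicativeFamilies` does the rest.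
-/

set_option autoImplicit false

open Finset

namespace Pool.Agent.Results.MP_081200_nt.SmoothFamilies

open FewDigitCubicCharacters (Eis nm IsSymbol)
open FarShortIntervals (det SmallSums)
open MultiplicativeFamilies (MostOnLines MostInPlane criterion_prime)

/-- `F 0` has on the positive numbers the derivatives `F 1`, …, `F (k + 2)`; on `[N, 3 N]` the function `F 0` is nonnegative, `F (k + 1)` is between `lam`
and `B lam`, where `N ^ (-1 + τ) ≤ lam ≤ N ^ (-τ)`, and `F (k + 2)` is nonpositive. -/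
def Smooth (k : ℕ) (B τ : ℝ) (N : ℕ) (F : ℕ → ℝ → ℝ) : Prop :=
  (∀ r < k + 2, ∀ x : ℝ, 0 < x → HasDerivAt (F r) (F (r + 1) x) x) ∧
  ∃ lam : ℝ, (N : ℝ) ^ (-1 + τ) ≤ lam ∧ lam ≤ (N : ℝ) ^ (-τ) ∧
    ∀ x : ℝ, N ≤ x → x ≤ 3 * N → 0 ≤ F 0 x ∧ lam ≤ F (k + 1) x ∧ F (k + 1) x ≤ B * lam ∧ F (k + 2) x ≤ 0

lemma lines_mono {κ ι : Type} {w : κ → ℕ → ℂ} {Λ : ℕ → Finset κ} {A C : ℕ} {δ : ℝ} {y : ℕ} {Y Y' : ℝ} {T : Finset ι} {t : ι → ℕ}
    (h : MostOnLines w Λ A C δ y Y' T t) (hY : Y ≤ Y') : MostOnLines w Λ A C δ y Y T t := by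
  classical
  intro β γ hd hd'
  refine le_trans ?_ (h β γ hd hd')
  apply Nat.cast_le.2
  apply card_le_card
  intro i hi
  rw [mem_filter] at hi ⊢
  exact ⟨hi.1, fun hcon => hi.2 fun h3 ψ hψ N hyN hN => hcon h3 ψ hψ N hyN (hN.trans hY)⟩

lemma plane_mono {κ ι ι' : Type} {w : κ → ℕ → ℂ} {Λ : ℕ → Finset κ} {A C : ℕ} {δ : ℝ} {y : ℕ} {Y Y' : ℝ} {T : Finset ι} {t : ι → ℕ}
    {T' : Finset ι'} {t' : ι' → ℕ} (h : MostInPlane w Λ A C δ y Y' T t T' t') (hY : Y ≤ Y') : MostInPlane w Λ A C δ y Y T t T' t' := by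
  classical
  intro β γ₁ γ₂ hd hd'
  refine le_trans ?_ (h β γ₁ γ₂ hd hd')
  apply Nat.cast_le.2
  apply card_le_card
  intro i hi
  rw [mem_filter] at hi ⊢
  exact ⟨hi.1, fun hcon => hi.2 fun h3 ψ hψ N hyN hN => hcon h3 ψ hψ N hyN (hN.trans hY)⟩

lemma pow_mono (N : ℕ) {c e : ℝ} (hc : 0 < c) (hce : c ≤ e) : (N : ℝ) ^ c ≤ (N : ℝ) ^ e := by
  rcases Nat.eq_zero_or_pos N with h | h
  · rw [h, Nat.cast_zero, Real.zero_rpow hc.ne', Real.zero_rpow (by linarith)]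
  · exact Real.rpow_le_rpow_of_exponent_le (by exact_mod_cast h) hce

/-- **Cubic characters in far short intervals, conductors from integer parts of smooth functions.** See the introduction of the file. In the first part
`c` and `y₀` depend on `A`, `C`, `δ`, `k`, `k'`, `B`, `τ` only, in the second part on `A`, `C`, `δ`, `r`, `s` only. -/
theorem result (A C : ℕ) (δ : ℝ) (hδ : 0 < δ) :
    (∀ (k k' : ℕ) (B τ : ℝ), 1 ≤ B → 0 < τ → ∃ c : ℝ, 0 < c ∧ ∃ y₀ : ℕ, ∀ y : ℕ, y₀ ≤ y →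
      ∀ (κ : Type) (w : κ → ℕ → ℂ) (Λ : ℕ → Finset κ), (∀ i n, ‖w i n‖ ≤ 1) → (∀ N, (Λ N).card ≤ N ^ A) →
      ∀ (N L N' L' : ℕ) (F G : ℕ → ℝ → ℝ), Smooth k B τ N F → Smooth k' B τ N' G →
        (N : ℝ) ^ (1 - c) ≤ L → L ≤ N → (N' : ℝ) ^ (1 - c) ≤ L' → L' ≤ N' →
        MostOnLines w Λ A C δ y ((N : ℝ) ^ c) (Ico N (N + L)) (fun n => ⌊F 0 (n : ℝ)⌋₊) ∧
        MostInPlane w Λ A C δ y (min ((N : ℝ) ^ c) ((N' : ℝ) ^ c)) (Ico N (N + L)) (fun n => ⌊F 0 (n : ℝ)⌋₊)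
          (Ico N' (N' + L')) (fun n => ⌊G 0 (n : ℝ)⌋₊)) ∧
    (∀ r s : ℝ, 0 < r → 0 < s → (∀ n : ℕ, r ≠ n) → (∀ n : ℕ, s ≠ n) → ∃ c : ℝ, 0 < c ∧ ∃ y₀ : ℕ, ∀ y : ℕ, y₀ ≤ y →
      ∀ (κ : Type) (w : κ → ℕ → ℂ) (Λ : ℕ → Finset κ), (∀ i n, ‖w i n‖ ≤ 1) → (∀ N, (Λ N).card ≤ N ^ A) →
      ∀ (N L N' L' : ℕ) (a b a' b' : ℝ), (N : ℝ) ^ (-c) ≤ a → a ≤ (N : ℝ) ^ c → 0 ≤ b → (N' : ℝ) ^ (-c) ≤ a' → a' ≤ (N' : ℝ) ^ c → 0 ≤ b' →
        (N : ℝ) ^ (1 - c) ≤ L → L ≤ N → (N' : ℝ) ^ (1 - c) ≤ L' → L' ≤ N' →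
        MostOnLines w Λ A C δ y ((N : ℝ) ^ c) (Ico N (N + L)) (fun n => ⌊a * (n : ℝ) ^ r + b⌋₊) ∧
        MostInPlane w Λ A C δ y (min ((N : ℝ) ^ c) ((N' : ℝ) ^ c)) (Ico N (N + L)) (fun n => ⌊a * (n : ℝ) ^ r + b⌋₊)
          (Ico N' (N' + L')) (fun n => ⌊a' * (n : ℝ) ^ s + b'⌋₊)) := by
  constructor
  · intro k k' B τ hB hτ
    obtain ⟨η₁, hη₁, N₁, h1⟩ := Pool.Agent.K7.H67.VDC.smooth_equi k B τ hB hτ
    obtain ⟨η₂, hη₂, N₂, h2⟩ := Pool.Agent.K7.H67.VDC.smooth_equi k' B τ hB hτ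
    obtain ⟨e, he, y₀, h⟩ := criterion_prime A C δ hδ (min η₁ η₂) (lt_min hη₁ hη₂) (N₁ + N₂ + 1)
    obtain ⟨c, hc⟩ : ∃ c, c = min e (min η₁ η₂) := ⟨_, rfl⟩
    have hc0 : 0 < c := by rw [hc]; exact lt_min he (lt_min hη₁ hη₂)
    have hce : c ≤ e := by rw [hc]; exact min_le_left _ _
    have hc1 : c ≤ η₁ := by rw [hc]; exact (min_le_right _ _).trans (min_le_left _ _)
    have hc2 : c ≤ η₂ := by rw [hc]; exact (min_le_right _ _).trans (min_le_right _ _)
    refine ⟨c, hc0, y₀, fun y hy κ w Λ hw hΛ N L N' L' F G hF hG hL1 hL2 hL1' hL2' => ?_⟩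
    have h3 := h y hy κ w Λ hw hΛ N N' ℕ ℕ (Ico N (N + L)) (fun n => ⌊F 0 (n : ℝ)⌋₊) (Ico N' (N' + L')) (fun n => ⌊G 0 (n : ℝ)⌋₊)
      (fun hN X hX => by
        have hN1 : (1 : ℝ) ≤ N := by exact_mod_cast (by omega : 1 ≤ N)
        exact h1 N (by omega) F hF L ((Real.rpow_le_rpow_of_exponent_le hN1 (by linarith)).trans hL1) hL2 X
          (hX.trans (Real.rpow_le_rpow_of_exponent_le hN1 (min_le_left _ _))))
      (fun hN X hX => by
        have hN1 : (1 : ℝ) ≤ N' := by exact_mod_cast (by omega : 1 ≤ N')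
        exact h2 N' (by omega) G hG L' ((Real.rpow_le_rpow_of_exponent_le hN1 (by linarith)).trans hL1') hL2' X
          (hX.trans (Real.rpow_le_rpow_of_exponent_le hN1 (min_le_right _ _))))
    exact ⟨lines_mono h3.1 (pow_mono N hc0 hce), plane_mono h3.2 (min_le_min (pow_mono N hc0 hce) (pow_mono N' hc0 hce))⟩
  · intro r s hr hs hri hsi
    obtain ⟨η₁, hη₁, N₁, h1⟩ := Pool.Agent.K7.H67.VDC.ps_equi r hr hri
    obtain ⟨η₂, hη₂, N₂, h2⟩ := Pool.Agent.K7.H67.VDC.ps_equi s hs hsi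
    obtain ⟨e, he, y₀, h⟩ := criterion_prime A C δ hδ (min η₁ η₂) (lt_min hη₁ hη₂) (N₁ + N₂ + 1)
    obtain ⟨c, hc⟩ : ∃ c, c = min e (min η₁ η₂) := ⟨_, rfl⟩
    have hc0 : 0 < c := by rw [hc]; exact lt_min he (lt_min hη₁ hη₂)
    have hce : c ≤ e := by rw [hc]; exact min_le_left _ _
    have hc1 : c ≤ η₁ := by rw [hc]; exact (min_le_right _ _).trans (min_le_left _ _)
    have hc2 : c ≤ η₂ := by rw [hc]; exact (min_le_right _ _).trans (min_le_right _ _)
    refine ⟨c, hc0, y₀, fun y hy κ w Λ hw hΛ N L N' L' a b a' b' ha1 ha2 hb ha1' ha2' hb' hL1 hL2 hL1' hL2' => ?_⟩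
    have h3 := h y hy κ w Λ hw hΛ N N' ℕ ℕ (Ico N (N + L)) (fun n => ⌊a * (n : ℝ) ^ r + b⌋₊) (Ico N' (N' + L')) (fun n => ⌊a' * (n : ℝ) ^ s + b'⌋₊)
      (fun hN X hX => by
        have hN1 : (1 : ℝ) ≤ N := by exact_mod_cast (by omega : 1 ≤ N)
        exact h1 N (by omega) a b ((Real.rpow_le_rpow_of_exponent_le hN1 (by linarith)).trans ha1)
          (ha2.trans (Real.rpow_le_rpow_of_exponent_le hN1 hc1)) hb L ((Real.rpow_le_rpow_of_exponent_le hN1 (by linarith)).trans hL1) hL2 X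
          (hX.trans (Real.rpow_le_rpow_of_exponent_le hN1 (min_le_left _ _))))
      (fun hN X hX => by
        have hN1 : (1 : ℝ) ≤ N' := by exact_mod_cast (by omega : 1 ≤ N')
        exact h2 N' (by omega) a' b' ((Real.rpow_le_rpow_of_exponent_le hN1 (by linarith)).trans ha1')
          (ha2'.trans (Real.rpow_le_rpow_of_exponent_le hN1 hc2)) hb' L' ((Real.rpow_le_rpow_of_exponent_le hN1 (by linarith)).trans hL1') hL2' X
          (hX.trans (Real.rpow_le_rpow_of_exponent_le hN1 (min_le_right _ _))))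
    exact ⟨lines_mono h3.1 (pow_mono N hc0 hce), plane_mono h3.2 (min_le_min (pow_mono N hc0 hce) (pow_mono N' hc0 hce))⟩

end Pool.Agent.Results.MP_081200_nt.SmoothFamilies
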